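import Mathlib

open Metric Set

namespace Pool.Agent.Results.MP_c89e4d_an.SuperDelta

section Definitions

variable (𝕜 : Type*) [RCLike 𝕜] {X : Type*} [NormedAddCommGroup X] [NormedSpace 𝕜 X]

/-- `S` is a slice of the closed unit ball: `S = {y ∈ B_X : Re f(y) > 1 - α}` for some continuous
linear functional `f` of norm one and some `α > 0`. -/
def IsSlice (S : Set X) : Prop :=
  ∃ (f : X →L[𝕜] 𝕜) (α : ℝ), ‖f‖ = 1 ∧ 0 < α ∧ S = {y | ‖y‖ ≤ 1 ∧ 1 - α < RCLike.re (f y)}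

/-- `C` is a convex combination of slices of the closed unit ball. -/
def IsCCS (C : Set X) : Prop :=
  ∃ (n : ℕ) (lam : Fin n → ℝ) (S : Fin n → Set X), 1 ≤ n ∧ (∀ i, IsSlice 𝕜 (S i)) ∧
    (∀ i, 0 < lam i) ∧ ∑ i, lam i = 1 ∧
    C = {z | ∃ y : Fin n → X, (∀ i, y i ∈ S i) ∧ z = ∑ i, (lam i : 𝕜) • y i}

/-- `W` is a relatively weakly open subset of the closed unit ball. -/
def IsRelWeaklyOpen (W : Set X) : Prop :=
  ∃ U : Set (WeakSpace 𝕜 X), IsOpen U ∧ W = {y | ‖y‖ ≤ 1 ∧ toWeakSpace 𝕜 X y ∈ U}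

/-- `x` is a ccs `Δ`-point. -/
def IsCCSDelta (x : X) : Prop :=
  ‖x‖ = 1 ∧ ∀ C : Set X, IsCCS 𝕜 C → x ∈ C → sSup ((fun y => ‖x - y‖) '' C) = 2

/-- `x` is a super `Δ`-point. -/
def IsSuperDelta (x : X) : Prop :=
  ‖x‖ = 1 ∧ ∀ W : Set X, IsRelWeaklyOpen 𝕜 W → x ∈ W → sSup ((fun y => ‖x - y‖) '' W) = 2

end Definitions

section

variable {𝕜 : Type*} [RCLike 𝕜] {X : Type*} [NormedAddCommGroup X] [NormedSpace 𝕜 X]

/-- sets cut from the ball by a functional, with positive margin at a point of norm one, are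
slices -/
lemma isSlice_of {x : X} (hx : ‖x‖ = 1) (h : X →L[𝕜] 𝕜) {δ : ℝ} (hδ : 0 < δ) :
    IsSlice 𝕜 {y : X | ‖y‖ ≤ 1 ∧ RCLike.re (h x) - δ < RCLike.re (h y)} := by
  by_cases hh : h = 0
  · subst hh
    obtain ⟨g, hg, -⟩ := exists_dual_vector 𝕜 x (by rw [hx]; exact one_ne_zero)
    refine ⟨g, 3, hg, by norm_num, ?_⟩
    ext y
    simp only [mem_ofPred_eq, zero_apply, map_zero, zero_sub]
    constructor
    · rintro ⟨hy, -⟩
      refine ⟨hy, ?_⟩
      have h1 : |RCLike.re (g y)| ≤ 1 := by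
        refine (RCLike.abs_re_le_norm _).trans ((g.le_opNorm y).trans ?_)
        rw [hg, one_mul]; exact hy
      linarith [neg_le_of_abs_le h1]
    · rintro ⟨hy, -⟩
      exact ⟨hy, by linarith⟩
  · have hn : 0 < ‖h‖ := norm_pos_iff.mpr hh
    have hre : RCLike.re (h x) ≤ ‖h‖ := by
      refine (RCLike.re_le_norm _).trans ((h.le_opNorm x).trans ?_)
      rw [hx, mul_one]
    refine ⟨((‖h‖⁻¹ : ℝ) : 𝕜) • h, 1 - (RCLike.re (h x) - δ) / ‖h‖, ?_, ?_, ?_⟩
    · rw [norm_smul, RCLike.norm_ofReal, abs_of_pos (inv_pos.mpr hn), inv_mul_cancel₀ hn.ne']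
    · rw [sub_pos, div_lt_one hn]; linarith
    · ext y
      simp only [mem_ofPred_eq, smul_apply, smul_eq_mul, RCLike.re_ofReal_mul,
        sub_sub_cancel]
      refine and_congr_right fun _ => ?_
      rw [inv_mul_eq_div, div_lt_div_iff_of_pos_right hn]

/-- the essential consequence of the ccs `Δ` property -/
lemma exists_functional {x : X} (h : IsCCSDelta 𝕜 x) {N : ℕ} (hN : 1 ≤ N)
    (S : Fin N → Set X) (hS : ∀ i, IsSlice 𝕜 (S i)) (hxS : ∀ i, x ∈ S i) {ε : ℝ} (hε : 0 < ε) :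
    ∃ (f : X →L[𝕜] 𝕜) (y : Fin N → X), ‖f‖ ≤ 1 ∧ (∀ i, y i ∈ S i) ∧
      1 - ε < RCLike.re (f x) ∧ ∀ i, RCLike.re (f (y i)) < -1 + ε := by
  have hN0 : (0 : ℝ) < N := by exact_mod_cast hN
  set C : Set X := {z | ∃ y : Fin N → X, (∀ i, y i ∈ S i) ∧
    z = ∑ i, (((1 / N : ℝ)) : 𝕜) • y i} with hC
  have hccs : IsCCS 𝕜 C := by
    refine ⟨N, fun _ => 1 / N, S, hN, hS, fun _ => by positivity, ?_, rfl⟩
    simp [hN0.ne']
  have hxC : x ∈ C := by
    refine ⟨fun _ => x, hxS, ?_⟩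
    rw [Finset.sum_const, Finset.card_univ, Fintype.card_fin, ← Nat.cast_smul_eq_nsmul 𝕜, smul_smul]
    have : ((N : 𝕜)) * ((1 / N : ℝ) : 𝕜) = 1 := by
      have hN' : (N : 𝕜) ≠ 0 := by exact_mod_cast (by omega : N ≠ 0)
      push_cast
      rw [mul_one_div, div_self hN']
    rw [this, one_smul]
  have hsup := h.2 C hccs hxC
  have hne : ((fun y => ‖x - y‖) '' C).Nonempty := ⟨_, x, hxC, rfl⟩
  obtain ⟨_, ⟨z, ⟨y, hy, hz⟩, rfl⟩, hlt⟩ := exists_lt_of_lt_csSup hne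
    (show 2 - ε / N < sSup ((fun y => ‖x - y‖) '' C) by rw [hsup]; linarith [div_pos hε hN0])
  simp only at hlt
  have hεN : ε / N ≤ ε := by
    rw [div_le_iff₀ hN0]
    have : (1 : ℝ) ≤ N := by exact_mod_cast hN
    nlinarith
  -- the ball of radius one contains the y i
  have hyn : ∀ i, ‖y i‖ ≤ 1 := by
    intro i
    obtain ⟨f, α, -, -, hSi⟩ := hS i
    have := hy i
    rw [hSi] at this
    exact this.1
  obtain ⟨f, hf, hfx⟩ := exists_dual_vector'' 𝕜 (x - z)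
  have hball : ∀ w : X, ‖w‖ ≤ 1 → |RCLike.re (f w)| ≤ 1 := by
    intro w hw
    refine (RCLike.abs_re_le_norm _).trans ((f.le_opNorm w).trans ?_)
    have := norm_nonneg w
    nlinarith [norm_nonneg f]
  have hfx1 : RCLike.re (f x) ≤ 1 := (abs_le.mp (hball x h.1.le)).2
  have hfy1 : ∀ i, -1 ≤ RCLike.re (f (y i)) := fun i => (abs_le.mp (hball _ (hyn i))).1
  have hfxz : RCLike.re (f x) - RCLike.re (f z) = ‖x - z‖ := by
    rw [← map_sub, ← map_sub, hfx, RCLike.ofReal_re]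
  have hfz : RCLike.re (f z) = (1 / N) * ∑ i, RCLike.re (f (y i)) := by
    rw [hz, map_sum, map_sum, Finset.mul_sum]
    refine Finset.sum_congr rfl fun i _ => ?_
    rw [map_smul, smul_eq_mul, RCLike.re_ofReal_mul]
  have hsum : ∑ i, RCLike.re (f (y i)) < -N + ε := by
    have h1 : (1 / N : ℝ) * ∑ i, RCLike.re (f (y i)) < -1 + ε / N := by
      rw [← hfz]; linarith
    have h2 := mul_lt_mul_of_pos_left h1 hN0
    rw [← mul_assoc, mul_one_div, div_self hN0.ne', one_mul] at h2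
    calc _ < _ := h2
      _ = _ := by field_simp
  have hsumge : -(N : ℝ) ≤ ∑ i, RCLike.re (f (y i)) := by
    calc -(N : ℝ) = ∑ _i : Fin N, (-1 : ℝ) := by simp
      _ ≤ _ := Finset.sum_le_sum fun i _ => hfy1 i
  have hfz1 : -1 ≤ RCLike.re (f z) := by
    rw [hfz]
    calc (-1 : ℝ) = 1 / N * -(N : ℝ) := by field_simp
      _ ≤ _ := by gcongr
  have hx1 : 1 - ε < RCLike.re (f x) := by linarith
  refine ⟨f, y, hf, hy, hx1, fun j => ?_⟩
  · have h3 : ∑ i ∈ Finset.univ.erase j, (-1 : ℝ) ≤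
        ∑ i ∈ Finset.univ.erase j, RCLike.re (f (y i)) := Finset.sum_le_sum fun i _ => hfy1 i
    have h4 := Finset.add_sum_erase Finset.univ (fun i => RCLike.re (f (y i))) (Finset.mem_univ j)
    rw [Finset.sum_const, Finset.card_erase_of_mem (Finset.mem_univ j), Finset.card_univ,
      Fintype.card_fin, nsmul_eq_mul, Nat.cast_sub hN] at h3
    push_cast at h3
    linarith

/-- a form of separation: a convex set missing the ball of radius `η` around `p` is separated from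
`p` by a functional of norm one with margin `3η/4` -/
lemma separate {E : Type*} [NormedAddCommGroup E] [NormedSpace 𝕜 E] [NormedSpace ℝ E]
    [IsScalarTower ℝ 𝕜 E] {K : Set E} (hK : Convex ℝ K) (hKne : K.Nonempty) (p : E) {η : ℝ}
    (hη : 0 < η) (hd : ∀ b ∈ K, η ≤ ‖b - p‖) :
    ∃ g : E →L[𝕜] 𝕜, ‖g‖ = 1 ∧ ∀ b ∈ K, RCLike.re (g b) + 3 / 4 * η ≤ RCLike.re (g p) := by
  have hdisj : Disjoint (ball p η) K := by
    rw [Set.disjoint_left]
    intro b hb hbK
    rw [mem_ball, dist_eq_norm] at hb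
    exact absurd (hd b hbK) (not_le.mpr hb)
  obtain ⟨g, u, hg1, hg2⟩ := RCLike.geometric_hahn_banach_open (𝕜 := 𝕜) (convex_ball p η)
    isOpen_ball hK hdisj
  have hgp : RCLike.re (g p) < u := hg1 p (mem_ball_self hη)
  obtain ⟨b₀, hb₀⟩ := hKne
  have hgn : 0 < ‖g‖ := by
    rw [norm_pos_iff]
    rintro rfl
    have := hg2 b₀ hb₀
    simp only [zero_apply, map_zero] at this hgp
    linarith
  have hbound : 3 / 4 * η * ‖g‖ ≤ u - RCLike.re (g p) := by
    have h1 : ‖g‖ ≤ (u - RCLike.re (g p)) / (3 / 4 * η) := by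
      refine g.opNorm_le_bound (by have := sub_pos.mpr hgp; positivity) fun v => ?_
      by_cases hv : v = 0
      · simp [hv]
      have hvn : 0 < ‖v‖ := norm_pos_iff.mpr hv
      by_cases hgv : g v = 0
      · rw [hgv, norm_zero]; have := sub_pos.mpr hgp; positivity
      have hgvn : 0 < ‖g v‖ := norm_pos_iff.mpr hgv
      -- rotate and scale `v`
      set c : 𝕜 := ((3 / 4 * η / ‖v‖ : ℝ) : 𝕜) * ((‖g v‖ : 𝕜) / g v) with hc
      have hcn : ‖c • v‖ = 3 / 4 * η := by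
        rw [norm_smul, hc, norm_mul, RCLike.norm_ofReal, norm_div, RCLike.norm_ofReal,
          abs_of_pos (by positivity), abs_of_pos hgvn, div_self hgvn.ne']
        field_simp
      have hmem : p + c • v ∈ ball p η := by
        rw [mem_ball, dist_eq_norm, add_sub_cancel_left, hcn]; linarith
      have h2 := hg1 _ hmem
      rw [map_add, map_add, map_smul, smul_eq_mul, hc, mul_assoc, div_mul_cancel₀ _ hgv,
        RCLike.re_ofReal_mul, RCLike.ofReal_re] at h2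
      rw [div_mul_eq_mul_div, le_div_iff₀ (by positivity)]
      have h3 : 3 / 4 * η / ‖v‖ * ‖g v‖ < u - RCLike.re (g p) := by linarith
      rw [div_mul_eq_mul_div, div_lt_iff₀ hvn] at h3
      linarith
    rwa [le_div_iff₀ (by positivity), mul_comm] at h1
  refine ⟨-(((‖g‖⁻¹ : ℝ) : 𝕜) • g), ?_, fun b hb => ?_⟩
  · rw [norm_neg, norm_smul, RCLike.norm_ofReal, abs_of_pos (inv_pos.mpr hgn),
      inv_mul_cancel₀ hgn.ne']
  · simp only [neg_apply, smul_apply, smul_eq_mul, map_neg, RCLike.re_ofReal_mul]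
    have h3 := hg2 b hb
    have h4 : 3 / 4 * η * ‖g‖ ≤ RCLike.re (g b) - RCLike.re (g p) := by linarith
    have h5 : 3 / 4 * η ≤ ‖g‖⁻¹ * (RCLike.re (g b) - RCLike.re (g p)) := by
      rw [inv_mul_eq_div, le_div_iff₀ hgn]; exact h4
    linarith

/-- the finite-dimensional form of the theorem -/
lemma key {x : X} (h : IsCCSDelta 𝕜 x) {E : Type*} [NormedAddCommGroup E] [NormedSpace 𝕜 E]
    [FiniteDimensional 𝕜 E] (π : X →L[𝕜] E) {η ε : ℝ} (hη : 0 < η) (hε : 0 < ε) :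
    ∃ z, ‖z‖ ≤ 1 ∧ ‖π z - π x‖ < η ∧ 2 - ε < ‖x - z‖ := by
  classical
  let _ : NormedSpace ℝ X := NormedSpace.restrictScalars ℝ 𝕜 X
  let _ : NormedSpace ℝ E := NormedSpace.restrictScalars ℝ 𝕜 E
  have _ : IsScalarTower ℝ 𝕜 X := inferInstance
  have _ : IsScalarTower ℝ 𝕜 E := inferInstance
  have _ : ProperSpace (E →L[𝕜] 𝕜) := FiniteDimensional.proper_rclike 𝕜 _
  have hcomp : IsCompact (sphere (0 : E →L[𝕜] 𝕜) 1) := isCompact_sphere _ _
  set M : ℝ := 2 * ‖π‖ + 1 with hM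
  have hM0 : 0 < M := by positivity
  have hδ : 0 < η / (4 * M) := by positivity
  obtain ⟨t, -, htf, ht⟩ := hcomp.finite_cover_balls hδ
  set T : Finset (E →L[𝕜] 𝕜) := insert 0 htf.toFinset with hT
  have hTpos : 1 ≤ T.card := Finset.card_pos.mpr ⟨0, Finset.mem_insert_self _ _⟩
  let e : Fin T.card ≃ T := T.equivFin.symm
  set S : Fin T.card → Set X := fun i =>
    {y : X | ‖y‖ ≤ 1 ∧ RCLike.re (((e i : E →L[𝕜] 𝕜).comp π) x) - η / 4 <
      RCLike.re (((e i : E →L[𝕜] 𝕜).comp π) y)} with hS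
  obtain ⟨f, y, hf, hy, hfx, hfy⟩ := exists_functional h hTpos S
    (fun i => isSlice_of h.1 _ (by positivity))
    (fun i => ⟨h.1.le, by linarith⟩) (ε := ε / 2) (by positivity)
  set K : Set X := convexHull ℝ (Set.range y) with hK
  have hKball : K ⊆ closedBall 0 1 := by
    refine convexHull_min ?_ (convex_closedBall _ _)
    rintro _ ⟨i, rfl⟩
    rw [mem_closedBall, dist_zero_right]
    exact (hy i).1
  have hKf : K ⊆ {w | RCLike.re (f w) < -1 + ε / 2} := by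
    refine convexHull_min ?_ ?_
    · rintro _ ⟨i, rfl⟩
      exact hfy i
    · exact convex_halfSpace_lt
        ((RCLike.reLm.comp (f.toLinearMap.restrictScalars ℝ)).isLinear) _
  by_cases hex : ∃ z ∈ K, ‖π z - π x‖ < η
  · obtain ⟨z, hz, hzη⟩ := hex
    refine ⟨z, ?_, hzη, ?_⟩
    · have := hKball hz
      rwa [mem_closedBall, dist_zero_right] at this
    · have h1 : RCLike.re (f z) < -1 + ε / 2 := hKf hz
      have h2 : RCLike.re (f (x - z)) ≤ ‖x - z‖ := by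
        refine (RCLike.re_le_norm _).trans ((f.le_opNorm _).trans ?_)
        exact mul_le_of_le_one_left (norm_nonneg _) hf
      rw [map_sub, map_sub] at h2
      linarith
  · exfalso
    push Not at hex
    have hKE : Convex ℝ (π '' K) :=
      (convex_convexHull ℝ (Set.range y)).is_linear_image
        ((π.toLinearMap.restrictScalars ℝ).isLinear)
    have hKne : (π '' K).Nonempty :=
      ⟨_, _, subset_convexHull ℝ _ ⟨⟨0, hTpos⟩, rfl⟩, rfl⟩
    obtain ⟨g, hg1, hg2⟩ := separate (𝕜 := 𝕜) hKE hKne (π x) hη (by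
      rintro _ ⟨z, hz, rfl⟩; exact hex z hz)
    have hgs : g ∈ sphere (0 : E →L[𝕜] 𝕜) 1 := by
      rw [mem_sphere, dist_zero_right]; exact hg1
    have hgt := ht hgs
    simp only [mem_iUnion, mem_ball, exists_prop] at hgt
    obtain ⟨g', hg't, hgg'⟩ := hgt
    have hg'T : g' ∈ T := by
      rw [hT]; exact Finset.mem_insert_of_mem (htf.mem_toFinset.mpr hg't)
    obtain ⟨j, hj⟩ := e.surjective ⟨g', hg'T⟩
    have hyj := hy j
    simp only [hS, mem_ofPred_eq, hj] at hyj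
    have h1 := hg2 (π (y j)) ⟨_, subset_convexHull ℝ _ ⟨j, rfl⟩, rfl⟩
    have h2 : ‖π x - π (y j)‖ ≤ 2 * ‖π‖ := by
      rw [← map_sub]
      refine (π.le_opNorm _).trans ?_
      have : ‖x - y j‖ ≤ 2 := by
        refine (norm_sub_le _ _).trans ?_
        linarith [h.1.le, hyj.1]
      nlinarith [norm_nonneg π]
    have h3 : |RCLike.re ((g - g') (π x - π (y j)))| ≤ η / 4 := by
      refine (RCLike.abs_re_le_norm _).trans (((g - g').le_opNorm _).trans ?_)
      rw [dist_eq_norm] at hgg'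
      calc ‖g - g'‖ * ‖π x - π (y j)‖ ≤ η / (4 * M) * M := by
            gcongr
            rw [hM]; linarith
        _ = η / 4 := by field_simp
    have h4 := (abs_le.mp h3).2
    simp only [sub_apply, map_sub] at h4
    have h5 := hyj.2
    simp only [ContinuousLinearMap.comp_apply] at h5
    linarith

end

/-- **Every ccs `Δ`-point is a super `Δ`-point** (for every real or complex normed space `X`,
in particular for every real or complex Banach space). -/
theorem result (𝕜 : Type*) [RCLike 𝕜] (X : Type*) [NormedAddCommGroup X] [NormedSpace 𝕜 X]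
    (x : X) (hx : IsCCSDelta 𝕜 x) : IsSuperDelta 𝕜 x := by
  classical
  refine ⟨hx.1, fun W hW hxW => ?_⟩
  obtain ⟨U, hU, rfl⟩ := hW
  have hne : ((fun y => ‖x - y‖) '' {y | ‖y‖ ≤ 1 ∧ toWeakSpace 𝕜 X y ∈ U}).Nonempty :=
    ⟨_, x, hxW, rfl⟩
  have hle : ∀ r ∈ ((fun y => ‖x - y‖) '' {y | ‖y‖ ≤ 1 ∧ toWeakSpace 𝕜 X y ∈ U}), r ≤ 2 := by
    rintro _ ⟨y, hy, rfl⟩
    refine (norm_sub_le _ _).trans ?_
    linarith [hx.1.le, hy.1]
  refine le_antisymm (csSup_le hne hle) ?_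
  refine le_of_forall_pos_lt_add fun ε hε => ?_
  -- a basic neighbourhood inside `U`
  obtain ⟨V, hV, hVU⟩ := isOpen_induced_iff.mp hU
  have hxV : (fun f : X →L[𝕜] 𝕜 => f x) ∈ V := by
    have := hxW.2
    rw [← hVU] at this
    exact this
  obtain ⟨I, u, hu, hIV⟩ := isOpen_pi_iff.mp hV _ hxV
  let π : X →L[𝕜] (I → 𝕜) := ContinuousLinearMap.pi fun i => (i : X →L[𝕜] 𝕜)
  have hopen : IsOpen {v : I → 𝕜 | ∀ i : I, v i ∈ u i} := by
    have : {v : I → 𝕜 | ∀ i : I, v i ∈ u i} = Set.pi Set.univ fun i : I => u i := by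
      ext v; simp
    rw [this]
    exact isOpen_set_pi Set.finite_univ fun i _ => (hu i i.2).1
  obtain ⟨η, hη, hball⟩ := Metric.isOpen_iff.mp hopen (π x) (fun i => (hu i i.2).2)
  obtain ⟨z, hz1, hz2, hz3⟩ := key hx π hη hε
  have hzW : z ∈ {y : X | ‖y‖ ≤ 1 ∧ toWeakSpace 𝕜 X y ∈ U} := by
    refine ⟨hz1, ?_⟩
    rw [← hVU]
    refine hIV fun i hi => ?_
    have : π z ∈ ball (π x) η := by rw [mem_ball, dist_eq_norm]; exact hz2
    exact hball this ⟨i, hi⟩
  have := le_csSup ⟨2, hle⟩ ⟨z, hzW, rfl⟩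
  simp only at this
  linarith

end Pool.Agent.Results.MP_c89e4d_an.SuperDelta
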